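import Pool.Agent.H942R3.JMMain

namespace Pool.Agent.Results.MP_e3ece1_pr.BothWalksSlow

open H942JM

/-- The assertion of Q1 is false, and more: for the step law `3/4 δ_0 + 1/8 δ_1 + 1/8 δ_{-1}`
there are infinitely many `q` coprime to `6` modulo which neither the base-2 nor the base-3 walk
has started to mix at any time `n ≤ (1/40) log q log log q`. -/
theorem result :
    (¬ JointMixing) ∧
    IsStepLaw mu0 ∧
    ∀ δ : ℝ, 0 < δ → ∀ Q0 : ℕ, ∃ q : ℕ, Q0 ≤ q ∧ Nat.gcd q 6 = 1 ∧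
      ∀ a ∈ ({2, 3} : Set ℤ), ∀ n : ℕ,
        (n : ℝ) ≤ 1 / 40 * (Real.log q * Real.log (Real.log q)) → 1 - δ ≤ tvDist mu0 a q n :=
  ⟨not_jointMixing, mu0_isStepLaw, slow_walks⟩

end Pool.Agent.Results.MP_e3ece1_pr.BothWalksSlow
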